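import Pool.Agent.H119.Sefe.Final

/-!
# The Hanani-Tutte characterization for simultaneous embedding with fixed edges

The definitions (`IsArc`, `IsProperCrossing`, `Drawing`, `Drawing.crossings`, `Drawing.Planar`,
`Drawing.OddAdmissible`, `AdmitsSEFE`) are in `Pool.Agent.H119.Sefe.Defs`.

The proof. For a plane drawing of a subgraph whose edges leave the vertices in the same directions
as in the given drawing, the corners of a face define an integral circulation on the edges.
Comparing the variations of the argument along pairs of edges, the given drawing yields an integer
identity which shows that an edge has both or none of its two ends in the face, as soon as the edges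
carrying the circulation cross the edges of a closed walk through this edge an even number of times.
A plane drawing of the shared graph is built together with a spanning forest of the union; all
circulations on it live on shared edges, which cross every edge evenly. Hence both ends of every
edge of the union lie in one face of this drawing. It is then extended to the first graph and,
separately, to the second graph.
-/

set_option autoImplicit false

namespace Pool.Agent.Results.MP_09e2fc_co.SefeHananiTutte

open Pool.Agent.H119.SefeDefs

/-- If the union of two finite graphs has a SEFE-odd-admissible drawing, then the two graphs admit a
simultaneous embedding with fixed edges. -/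
theorem result : ∀ (V : Type) (G₁ G₂ : (⊤ : SimpleGraph V).Subgraph),
    G₁.verts.Finite → G₂.verts.Finite →
    (∃ D : Drawing (G₁ ⊔ G₂), D.OddAdmissible) → AdmitsSEFE G₁ G₂ := by
  rintro V G₁ G₂ h₁ h₂ ⟨D, hD⟩
  exact Pool.Agent.H119.Sefe.sefe G₁ G₂ h₁ h₂ D hD

end Pool.Agent.Results.MP_09e2fc_co.SefeHananiTutte
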